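import Pool.Agent.MP_92db0f_lc_thr.Root

/-!
A bound for the content of the memory that is computed in polynomial time.
-/

set_option autoImplicit false

namespace Pool.Agent.PFZ

open Lib.helper60
open MP_92db0f_lc (PT_npow)
open MP_92db0f_lc_thr (rtc le_rtc PT_rtc)

/-- a rational exponent -/
lemma exists_exponent {k w : ℝ} (hk : 0 < k) (hkw : k * w < 1) :
    ∃ u v : ℕ, 1 ≤ v ∧ w ≤ (u : ℝ) / v ∧ k * ((u : ℝ) / v) < 1 := by
  have h1 : max w 0 < 1 / k := by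
    apply max_lt
    · rw [lt_div_iff₀ hk]
      linarith
    · positivity
  obtain ⟨r, hr1, hr2⟩ := exists_rat_btwn h1
  have hr0 : (0 : ℝ) < r := (le_max_right _ _).trans_lt hr1
  have hr0' : 0 ≤ r := by exact_mod_cast hr0.le
  have hr : ((r.num.toNat : ℕ) : ℝ) / (r.den : ℝ) = r := by
    have h2 : ((r.num.toNat : ℕ) : ℤ) = r.num := Int.toNat_of_nonneg (Rat.num_nonneg.2 hr0')
    have h3 : ((r.num.toNat : ℕ) : ℝ) = (r.num : ℝ) := by exact_mod_cast h2
    rw [h3]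
    exact_mod_cast Rat.num_div_den r
  refine ⟨r.num.toNat, r.den, r.den_pos, ?_, ?_⟩
  · rw [hr]
    exact (le_max_left _ _).trans hr1.le
  · rw [hr]
    rw [lt_div_iff₀ hk] at hr2
    linarith

/-- **The cap of the memory.** -/
theorem exists_memCap {k w : ℝ} (hk : 0 < k) (hkw : k * w < 1) (C : ℕ) :
    ∃ (σ : ℝ) (B : ℕ → ℕ) (K : ℕ), k * σ < 1 ∧
      (∀ {α : Type} [DEnc α] {m : α → ℕ}, PT m → PT fun x => B (m x)) ∧
      (∀ n l : ℕ, (l : ℝ) ≤ C * (n : ℝ) ^ w + C → l ≤ B n) ∧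
      ∀ n : ℕ, (B n : ℝ) ≤ K * (n : ℝ) ^ σ + K := by
  obtain ⟨u, v, hv, hw, hkσ⟩ := exists_exponent hk hkw
  have hv0 : (0 : ℝ) < v := by exact_mod_cast hv
  have hσ : (0 : ℝ) ≤ (u : ℝ) / v := by positivity
  have hpow : ∀ n : ℕ, ((n : ℝ) ^ ((u : ℝ) / v)) ^ v = (n : ℝ) ^ u := by
    intro n
    rw [← Real.rpow_natCast, ← Real.rpow_mul (Nat.cast_nonneg _), div_mul_cancel₀ _ hv0.ne',
      Real.rpow_natCast]
  refine ⟨(u : ℝ) / v, fun n => C * (rtc v 1 (n ^ u) + 2), 2 * C, hkσ, ?_, ?_, ?_⟩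
  · intro α _ m hm
    exact PT.nmul (PT.const C) (PT.nsucc (PT.nsucc (PT_rtc v (PT.const 1) (PT_npow hm u))))
  · intro n l hl
    have h1 : (n : ℝ) ^ w ≤ rtc v 1 (n ^ u) + 1 := by
      rcases Nat.eq_zero_or_pos n with rfl | hn
      · have h2 : (0 : ℝ) ≤ ((rtc v 1 (0 ^ u) : ℕ) : ℝ) := Nat.cast_nonneg _
        rw [Nat.cast_zero]
        exact (Real.zero_rpow_le_one w).trans (by linarith)
      · have hn1 : (1 : ℝ) ≤ n := by exact_mod_cast hn
        refine (Real.rpow_le_rpow_of_exponent_le hn1 hw).trans ?_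
        by_contra hlt
        rw [not_le] at hlt
        have h2 : ((rtc v 1 (n ^ u) + 1 : ℕ) : ℝ) ^ v ≤ (n : ℝ) ^ u := by
          rw [← hpow n]
          refine pow_le_pow_left₀ (Nat.cast_nonneg _) ?_ v
          push_cast
          exact hlt.le
        have h3 : 1 * (rtc v 1 (n ^ u) + 1) ^ v ≤ n ^ u := by
          rw [one_mul]
          exact_mod_cast h2
        have h4 := (le_rtc hv (le_refl 1)).2 h3
        omega
    have h2 : (l : ℝ) ≤ ((C * (rtc v 1 (n ^ u) + 2) : ℕ) : ℝ) := by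
      push_cast
      have h3 := mul_le_mul_of_nonneg_left h1 (Nat.cast_nonneg (α := ℝ) C)
      linarith
    exact_mod_cast h2
  · intro n
    have h1 : ((rtc v 1 (n ^ u) : ℕ) : ℝ) ≤ (n : ℝ) ^ ((u : ℝ) / v) := by
      by_contra hlt
      rw [not_le] at hlt
      have h2 := (le_rtc hv (le_refl 1)).1 (le_refl (rtc v 1 (n ^ u)))
      rw [one_mul] at h2
      have h3 : ((rtc v 1 (n ^ u) : ℕ) : ℝ) ^ v ≤ (n : ℝ) ^ u := by exact_mod_cast h2
      rw [← hpow n] at h3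
      exact absurd (pow_lt_pow_left₀ hlt (Real.rpow_nonneg (Nat.cast_nonneg _) _) (by omega))
        (not_lt.2 h3)
    push_cast
    have h2 := mul_le_mul_of_nonneg_left h1 (Nat.cast_nonneg (α := ℝ) C)
    have h3 : (0 : ℝ) ≤ C * (n : ℝ) ^ ((u : ℝ) / v) :=
      mul_nonneg (Nat.cast_nonneg _) (Real.rpow_nonneg (Nat.cast_nonneg _) _)
    linarith

end Pool.Agent.PFZ
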