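import Pool.Agent.PFP.Defs

/-!
Polynomial-time computations with queries to a set in `NP`, with bounded certificates, bounded
total price of the queries, bounded number of rounds, bounded memory and bounded advice, relative to
an oracle.
-/

set_option autoImplicit false

namespace Pool.Agent.PFZ

open Turing Computability Lib.helper60
open MP_92db0f_lc_alg (PolyTime join)
open PFP (Certified memory)

/-- The price of the query `true :: Q`, which asks whether `Q` belongs to the oracle in `NP`, is
`π Q`. Other queries are free. -/
def price (π : List Bool → ℕ) : List Bool → ℕ
  | true :: Q => π Q
  | _ => 0

/-- The largest price of a query in the round `i` of a computation with `p` parallel queries in each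
round; see `memory` for the computation. -/
noncomputable def roundPrice (π : List Bool → ℕ) (B : Set (List Bool))
    (q : ((List Bool × List Bool) × List Bool) × ℕ → List Bool)
    (u : ((List Bool × List Bool) × List Bool) × List Bool → List Bool)
    (z : List Bool × List Bool) (p i : ℕ) : ℕ :=
  (Finset.range p).sup fun j => price π (q ((z, memory B q u z p i), j))

/-- The class `Q(k, t, s, r, w, α)` relative to the oracle `O`, for the prices `π` and with `W n`
parallel queries in each round: the languages decided by deterministic polynomial-time computations
with free access to `O`, with `O(n ^ α)` bits of advice, which depend on the length `n` of the input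
only, and with an oracle in `NP`, namely the set of the strings `Q` that have a certificate. The
certificates of `Q` are checked by `R`, in polynomial time with the oracle `O`, and their length is
at most polynomial. The computation consists of `N n` rounds, where `N` is a polynomial, and each
round consists of `W n` parallel queries `false :: v`, which ask whether `v` belongs to `O`, or
`true :: Q`, which ask whether `Q` belongs to the oracle in `NP`; if the answer to the latter is
yes, then `Q` has a certificate whose length is `O(n ^ k)` and `O((π Q) ^ t)`. The sum over all
rounds of the largest price `π Q` of a query `true :: Q` is `O(n ^ s)`. This price is positive in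
`O(n ^ r)` rounds, and at the beginning of each of these rounds the memory contains `O(n ^ w)` bits;
otherwise its length is at most polynomial. The functions `q`, `u` and `d`, which give the queries,
the next content of the memory and the final decision, are computed by Turing machines in time
polynomial in the length of their arguments. -/
def InQ (O : Set (List Bool)) (k t s r w α : ℝ) (W : Polynomial ℕ) (π : List Bool → ℕ)
    (L : Set (List Bool)) : Prop :=
  ∃ (R : List Bool × List Bool → Prop)
    (q : ((List Bool × List Bool) × List Bool) × ℕ → List Bool)
    (u : ((List Bool × List Bool) × List Bool) × List Bool → List Bool)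
    (d : (List Bool × List Bool) × List Bool → Bool) (a : ℕ → List Bool)
    (N P : Polynomial ℕ) (C : ℕ),
    PolyTime encPair O R ∧
    Nonempty (TM2ComputableInPolyTime
      (fun z : ((List Bool × List Bool) × List Bool) × ℕ =>
        encPair (encPair (encPair z.1.1, z.1.2), List.replicate z.2 true)) (fun w => w) q) ∧
    Nonempty (TM2ComputableInPolyTime
      (fun z : ((List Bool × List Bool) × List Bool) × List Bool =>
        encPair (encPair (encPair z.1.1, z.1.2), z.2)) (fun w => w) u) ∧
    Nonempty (TM2ComputableInPolyTime
      (fun z : (List Bool × List Bool) × List Bool => encPair (encPair z.1, z.2)) encodeBool d) ∧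
    (∀ Q y, R (Q, y) → y.length ≤ P.eval Q.length) ∧
    (∀ n : ℕ, ((a n).length : ℝ) ≤ C * (n : ℝ) ^ α + C) ∧
    ∀ x : List Bool,
      (x ∈ L ↔ d ((x, a x.length), memory (join O (Certified R)) q u (x, a x.length)
        (W.eval x.length) (N.eval x.length)) = true) ∧
      (∀ i ≤ N.eval x.length, (memory (join O (Certified R)) q u (x, a x.length)
        (W.eval x.length) i).length ≤ P.eval x.length) ∧
      (∀ i < N.eval x.length, 0 < roundPrice π (join O (Certified R)) q u (x, a x.length)
          (W.eval x.length) i →
        ((memory (join O (Certified R)) q u (x, a x.length) (W.eval x.length) i).length : ℝ) ≤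
          C * (x.length : ℝ) ^ w + C) ∧
      (∀ i < N.eval x.length, ∀ j < W.eval x.length, ∀ Q ∈ Certified R,
        q (((x, a x.length), memory (join O (Certified R)) q u (x, a x.length)
          (W.eval x.length) i), j) = true :: Q →
        ∃ y, R (Q, y) ∧ (y.length : ℝ) ≤ C * (x.length : ℝ) ^ k + C ∧
          (y.length : ℝ) ≤ C * (π Q : ℝ) ^ t + C) ∧
      ((∑ i ∈ Finset.range (N.eval x.length),
        roundPrice π (join O (Certified R)) q u (x, a x.length) (W.eval x.length) i : ℕ) : ℝ) ≤
          C * (x.length : ℝ) ^ s + C ∧
      (({i | i < N.eval x.length ∧ 0 < roundPrice π (join O (Certified R)) q u (x, a x.length)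
        (W.eval x.length) i}.ncard : ℕ) : ℝ) ≤ C * (x.length : ℝ) ^ r + C

end Pool.Agent.PFZ
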