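import Pool.Agent.PFH.Defs
import Pool.Agent.PFZ.Defs

/-!
The length of a query as its price.
-/

set_option autoImplicit false

namespace Pool.Agent.PFZ

open Turing Computability Lib.helper60
open MP_92db0f_lc_alg (PolyTime join)
open PFP (Certified memory)

/-- a polynomial bound -/
lemma exists_poly_bound (C : ℕ) (t : ℝ) : ∃ P : Polynomial ℕ, ∀ n l : ℕ,
    (l : ℝ) ≤ C * (n : ℝ) ^ t + C → l ≤ P.eval n := by
  obtain ⟨k, hk⟩ := exists_nat_ge t
  refine ⟨Polynomial.C C * Polynomial.X ^ k + 2 * Polynomial.C C, fun n l h => ?_⟩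
  have h1 : (n : ℝ) ^ t ≤ (n : ℝ) ^ k + 1 := by
    rcases Nat.eq_zero_or_pos n with rfl | hn
    · have h2 : ((0 : ℕ) : ℝ) ^ t ≤ 1 := by
        rw [Nat.cast_zero]
        rcases eq_or_ne t 0 with h | h
        · rw [h, Real.rpow_zero]
        · rw [Real.zero_rpow h]
          norm_num
      have h3 : (0 : ℝ) ≤ ((0 : ℕ) : ℝ) ^ k := by positivity
      linarith
    · have h2 : (n : ℝ) ^ t ≤ (n : ℝ) ^ (k : ℝ) :=
        Real.rpow_le_rpow_of_exponent_le (by exact_mod_cast hn) hk
      rw [Real.rpow_natCast] at h2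
      linarith
  have h2 : (l : ℝ) ≤ ((C * n ^ k + 2 * C : ℕ) : ℝ) := by
    push_cast
    have h3 := mul_le_mul_of_nonneg_left h1 (Nat.cast_nonneg (α := ℝ) C)
    linarith
  have h3 : l ≤ C * n ^ k + 2 * C := by exact_mod_cast h2
  simpa [Polynomial.eval_add, Polynomial.eval_mul, Polynomial.eval_pow] using h3

lemma price_length (Q : List Bool) : price List.length Q = PFP.charge Q := by
  rcases Q with _ | ⟨b, Q⟩
  · rfl
  · cases b <;> rfl

lemma roundPrice_length (B : Set (List Bool))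
    (q : ((List Bool × List Bool) × List Bool) × ℕ → List Bool)
    (u : ((List Bool × List Bool) × List Bool) × List Bool → List Bool)
    (z : List Bool × List Bool) (p i : ℕ) :
    roundPrice List.length B q u z p i = PFP.roundCharge B q u z p i := by
  unfold roundPrice PFP.roundCharge
  simp only [price_length]

theorem of_InR {O : Set (List Bool)} {k t s r w α : ℝ} {L : Set (List Bool)}
    (h : PFH.InR O k t s r w α L) : InQ O k t s r w α 1 List.length L := by
  obtain ⟨R, q, u, d, a, N, C, hR, hq, hu, hd, hc, ha, hx⟩ := h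
  obtain ⟨P, hP⟩ := exists_poly_bound C t
  obtain ⟨P', hP'⟩ := exists_poly_bound C w
  have hPP : ∀ n, P.eval n ≤ (P + P').eval n ∧ P'.eval n ≤ (P + P').eval n := by
    intro n
    rw [Polynomial.eval_add]
    omega
  refine ⟨R, q, u, d, a, N, P + P', C, hR, hq, hu, hd,
    fun Q y hy => (hP _ _ (hc Q y hy)).trans (hPP _).1, ha, fun x => ?_⟩
  obtain ⟨h1, h2, h3, h4, h5⟩ := hx x
  refine ⟨h1, fun i hi => (hP' _ _ (h2 i hi)).trans (hPP _).2, fun i hi _ => h2 i hi.le,
    fun i hi j hj Q hQ hq => ?_, ?_, ?_⟩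
  · obtain ⟨y, hy⟩ := hQ
    rw [Polynomial.eval_one, Nat.lt_one_iff] at hj
    subst hj
    exact ⟨y, hy, h5 i hi Q y hq hy, hc Q y hy⟩
  · simp only [roundPrice_length]
    exact h3
  · simp only [roundPrice_length, Nat.pos_iff_ne_zero]
    exact h4

end Pool.Agent.PFZ
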