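import Pool.Agent.PFP.Lower
import Pool.Agent.PFZ.Cap
import Pool.Agent.PFZ.Defs

/-!
The lower bounds: computations whose queries have a bounded total price have few rounds with long
certificates, and the queries with long certificates depend on the previous answers only through the
memory.
-/

set_option autoImplicit false

namespace Pool.Agent.PFZ

open Lib.helper60 Function Turing Computability
open MP_92db0f_lc hiding answers InNEXP
open MP_92db0f_lc_alg (answers PolyTime join)
open MP_92db0f_lc_gold (cost roundAnswers roundCost PT_of_strN TM_of_strN PT_of_str PT_of_bool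
  TM_of_str TM_of_bool Decides InTradeoff KL KL_mem tradeoff)
open MP_92db0f_lc_wid (InWidth)
open PFP (InNE Certified memory replay cutQ simQ PT_of_str' PT_cutQ PT_replay replay_answers
  cap_bound OPT_mem)

/-- the length of the shortest certificate -/
lemma cost_le_length {R : List Bool × List Bool → Prop} {Q y : List Bool} (h : R (Q, y)) :
    cost R Q ≤ y.length :=
  Nat.sInf_le ⟨y, rfl, h⟩

lemma cost_eq_zero {R : List Bool × List Bool → Prop} {Q : List Bool}
    (h : ∀ y, R (Q, y) → y.length = 0) : cost R Q = 0 := by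
  by_cases hQ : ∃ y, R (Q, y)
  · obtain ⟨y, hy⟩ := hQ
    have h1 := cost_le_length hy
    rw [h y hy] at h1
    exact Nat.le_zero.1 h1
  · unfold cost
    have h1 : {l | ∃ c : List Bool, c.length = l ∧ R (Q, c)} = ∅ := by
      ext l
      simp only [Set.mem_ofPred_eq, Set.mem_empty_iff_false, iff_false]
      rintro ⟨c, _, hc⟩
      exact hQ ⟨c, hc⟩
    rw [h1, Nat.sInf_empty]

/-- the queries to `O` as queries with empty certificates -/
lemma exists_free {O : Set (List Bool)} {R : List Bool × List Bool → Prop}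
    {P : Polynomial ℕ} (hR : PolyTime encPair O R)
    (hRl : ∀ Q y, R (Q, y) → y.length ≤ P.eval Q.length) :
    ∃ R' : List Bool × List Bool → Prop, PolyTime encPair O R' ∧
      Certified R' = join O (Certified R) ∧
      (∀ Q y, R' (Q, y) → y.length ≤ P.eval Q.length) ∧
      (∀ Q, cost R' (true :: Q) = cost R Q) ∧
      ∀ v, (∀ Q, v ≠ true :: Q) → cost R' v = 0 := by
  classical
  obtain ⟨f, hf, hRf⟩ := MP_92db0f_lc_gold.exists_OPT hR
  have h1 : MP_92db0f_lc_gold.OPT O (fun p : List Bool × List Bool =>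
      (p.1.headD false && f (p.1.tail, p.2)) ||
        ((!p.1.headD true && decide (p.2.length = 0)) && decide (p.1.tail ∈ O))) := by
    refine MP_92db0f_lc_gold.OPT.bor (MP_92db0f_lc_gold.OPT.band
      (MP_92db0f_lc_gold.OPT.of_PT (PT.headD PT.fst (PT.const false)))
      (hf.comp_PT (PT.pair (PT.tail PT.fst) PT.snd))) (MP_92db0f_lc_gold.OPT.band
      (MP_92db0f_lc_gold.OPT.of_PT (PT.band (PT.bnot (PT.headD PT.fst (PT.const true)))
        (PT.isZero (PT.length PT.snd)))) (OPT_mem (PT.tail PT.fst)))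
  refine ⟨_, h1.polyTime, ?_, ?_, ?_, ?_⟩
  · ext Q
    rcases Q with _ | ⟨b, Q⟩
    · simp [Certified, join]
    · cases b
      · simp [Certified, join]
      · simp [Certified, join, hRf]
  · intro Q y h
    rcases Q with _ | ⟨b, Q⟩
    · simp at h
    · cases b
      · simp only [List.headD_cons, Bool.false_and, Bool.false_or, Bool.not_false, Bool.true_and,
          Bool.and_eq_true, decide_eq_true_eq] at h
        rw [h.1]
        exact Nat.zero_le _
      · simp only [List.headD_cons, List.tail_cons, Bool.true_and, Bool.not_true, Bool.false_and,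
          Bool.or_false] at h
        exact (hRl Q y ((hRf _).2 h)).trans (evalMono P (Nat.le_succ _))
  · intro Q
    unfold cost
    congr 1
    ext l
    simp only [Set.mem_ofPred_eq, List.headD_cons, List.tail_cons, Bool.true_and, Bool.not_true,
      Bool.false_and, Bool.or_false]
    constructor
    · rintro ⟨c, hc, h⟩
      exact ⟨c, hc, (hRf _).2 h⟩
    · rintro ⟨c, hc, h⟩
      exact ⟨c, hc, (hRf _).1 h⟩
  · intro v hv
    refine cost_eq_zero fun y h => ?_
    rcases v with _ | ⟨b, v⟩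
    · simp at h
    · cases b
      · simp only [List.headD_cons, Bool.false_and, Bool.false_or, Bool.not_false, Bool.true_and,
          Bool.and_eq_true, decide_eq_true_eq] at h
        exact h.1
      · exact absurd rfl (hv v)

/-- a larger exponent -/
lemma up {C K n : ℕ} {e e' : ℝ} (he : e ≤ e') (hK : 2 * C ≤ K) :
    (C : ℝ) * (n : ℝ) ^ e + C ≤ K * (n : ℝ) ^ e' + K := by
  have hK' : (2 : ℝ) * C ≤ K := by exact_mod_cast hK
  have hC : (0 : ℝ) ≤ C := Nat.cast_nonneg C
  have h0 : (0 : ℝ) ≤ (n : ℝ) ^ e' := Real.rpow_nonneg (Nat.cast_nonneg _) _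
  rcases Nat.eq_zero_or_pos n with rfl | hn
  · have h2 : ((0 : ℕ) : ℝ) ^ e ≤ 1 := by
      rw [Nat.cast_zero]
      exact Real.zero_rpow_le_one e
    have h3 := mul_le_mul_of_nonneg_left h2 hC
    have h4 : (0 : ℝ) ≤ K * ((0 : ℕ) : ℝ) ^ e' := mul_nonneg (by linarith) h0
    linarith
  · have h2 : (n : ℝ) ^ e ≤ (n : ℝ) ^ e' :=
      Real.rpow_le_rpow_of_exponent_le (by exact_mod_cast hn) he
    have h3 : (C : ℝ) * (n : ℝ) ^ e ≤ K * (n : ℝ) ^ e' :=
      mul_le_mul (by linarith) h2 (Real.rpow_nonneg (Nat.cast_nonneg _) _) (by linarith)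
    linarith

/-! ### the computation as a computation without memory -/

theorem InQ.exists_sim {O L : Set (List Bool)} {k t s r w α : ℝ} (ht : 0 < t)
    {V : Polynomial ℕ} {π : List Bool → ℕ} (h : InQ O k t s r w α V π L) :
    ∃ (R : List Bool × List Bool → Prop)
      (q : ((List Bool × List Bool) × List Bool) × ℕ → List Bool)
      (S : (List Bool × List Bool) × List Bool → List Bool)
      (d : (List Bool × List Bool) × List Bool → Bool) (a : ℕ → List Bool) (N : ℕ → ℕ)
      (W P : Polynomial ℕ) (C : ℕ),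
      Decides O L R (fun y => q ((y.1.1, S y.1), y.2)) d a N W P ∧ PT q ∧ PT S ∧
      (∀ n : ℕ, ((a n).length : ℝ) ≤ C * (n : ℝ) ^ α + C) ∧
      ∀ x : List Bool, ∃ l : ℕ → ℕ,
        (∀ i < N x.length,
          (roundCost R (fun y => q ((y.1.1, S y.1), y.2)) (x, a x.length) (W.eval x.length) i
            : ℝ) ≤ C * (x.length : ℝ) ^ k + C ∧
          (roundCost R (fun y => q ((y.1.1, S y.1), y.2)) (x, a x.length) (W.eval x.length) i
            : ℝ) ≤ C * (l i : ℝ) ^ t + C ∧
          (0 < l i → ((S ((x, a x.length), roundAnswers (MP_92db0f_lc_gold.Certified R)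
            (fun y => q ((y.1.1, S y.1), y.2)) (x, a x.length) (W.eval x.length) i)).length : ℝ)
              ≤ C * (x.length : ℝ) ^ w + C)) ∧
        ((∑ i ∈ Finset.range (N x.length), l i : ℕ) : ℝ) ≤ C * (x.length : ℝ) ^ s + C ∧
        (({i | i < N x.length ∧ 0 < l i}.ncard : ℕ) : ℝ) ≤ C * (x.length : ℝ) ^ r + C := by
  classical
  obtain ⟨W, hW⟩ : ∃ W, W = V := ⟨_, rfl⟩
  rw [← hW] at h
  obtain ⟨R₀, q, u, d, a, N, P, C, hR₀, hq, hu, hd, hRl₀, ha, hx⟩ := h
  obtain ⟨R, hR, hRj, hRl, hRt, hRf⟩ := exists_free hR₀ hRl₀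
  rw [← hRj] at hx
  have hq' := PT_of_strN hq
  have hu' := PT_of_str' hu
  have hd' := PT_of_bool hd
  obtain ⟨c, hc⟩ : ∃ c, c = P := ⟨_, rfl⟩
  have hm := PT_replay hu' c W
  have hrep : ∀ x : List Bool, ∀ i ≤ N.eval x.length,
      replay u c W ((x, a x.length), roundAnswers (MP_92db0f_lc_gold.Certified R)
        (simQ u c W q) (x, a x.length) (W.eval x.length + 1) i) =
      (memory (Certified R) q u (x, a x.length) (W.eval x.length) i, []) := by
    intro x
    refine replay_answers (z := (x, a x.length)) fun i hi => ?_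
    rw [hc]
    exact (hx x).2.1 i hi
  have hS : PT (fun y : (List Bool × List Bool) × List Bool => (replay u c W y).1) := hm.p1
  have hcq := PT_cutQ W hq'
  refine ⟨R, cutQ W q, fun y => (replay u c W y).1, fun y => d (y.1, (replay u c W y).1), a,
    fun n => N.eval n, W + 1, N + P, C,
    ⟨hR, ?_, TM_of_strN (hcq.comp (PT.pair (PT.pair PT.fst.p1 (hS.comp PT.fst)) PT.snd)),
      TM_of_bool (hd'.comp (PT.pair PT.fst hS)), ?_, ?_⟩, hcq, hS, ha, ?_⟩
  · intro Q y hy
    rw [Polynomial.eval_add]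
    exact (hRl Q y hy).trans (Nat.le_add_left _ _)
  · intro n
    rw [Polynomial.eval_add]
    exact Nat.le_add_right _ _
  · intro x
    rw [Polynomial.eval_add, Polynomial.eval_one]
    have h1 := hrep x (N.eval x.length) le_rfl
    have h2 : (replay u c W ((x, a x.length), roundAnswers (MP_92db0f_lc_gold.Certified R)
        (fun y => cutQ W q ((y.1.1, (replay u c W y.1).1), y.2)) (x, a x.length)
          (W.eval x.length + 1) (N.eval x.length))).1 =
      memory (Certified R) q u (x, a x.length) (W.eval x.length) (N.eval x.length) :=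
      congrArg Prod.fst h1
    dsimp only at h2 ⊢
    rw [h2]
    exact (hx x).1
  · intro x
    refine ⟨roundPrice π (Certified R) q u (x, a x.length) (W.eval x.length), ?_,
      (hx x).2.2.2.2.1, (hx x).2.2.2.2.2⟩
    intro i hi
    have h1 := hrep x i hi.le
    have h2 : (replay u c W ((x, a x.length), roundAnswers (MP_92db0f_lc_gold.Certified R)
        (fun y => cutQ W q ((y.1.1, (replay u c W y.1).1), y.2)) (x, a x.length)
          (W.eval x.length + 1) i)).1 =
      memory (Certified R) q u (x, a x.length) (W.eval x.length) i :=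
      congrArg Prod.fst h1
    obtain ⟨m, hm'⟩ : ∃ m, m = memory (Certified R) q u (x, a x.length) (W.eval x.length) i :=
      ⟨_, rfl⟩
    have key : ∀ j, (cost R (cutQ W q (((x, a x.length), m), j)) : ℝ) ≤
        C * (x.length : ℝ) ^ k + C ∧ (cost R (cutQ W q (((x, a x.length), m), j)) : ℝ) ≤
        C * (roundPrice π (Certified R) q u (x, a x.length) (W.eval x.length) i : ℝ) ^ t + C := by
      intro j
      have h0 : cost R (cutQ W q (((x, a x.length), m), j)) = 0 →
          (cost R (cutQ W q (((x, a x.length), m), j)) : ℝ) ≤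
          C * (x.length : ℝ) ^ k + C ∧ (cost R (cutQ W q (((x, a x.length), m), j)) : ℝ) ≤
          C * (roundPrice π (Certified R) q u (x, a x.length) (W.eval x.length) i : ℝ) ^ t
            + C := by
        intro h
        rw [h, Nat.cast_zero]
        constructor <;> positivity
      by_cases hv : ∃ Q, cutQ W q (((x, a x.length), m), j) = true :: Q
      · obtain ⟨Q, hQ⟩ := hv
        by_cases hQc : Q ∈ Certified R₀
        · have hjW : j < W.eval x.length := by
            by_contra hn
            unfold cutQ at hQ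
            dsimp only at hQ
            rw [if_neg hn] at hQ
            exact absurd hQ (by simp)
          have hQ' : q (((x, a x.length), m), j) = true :: Q := by
            unfold cutQ at hQ
            dsimp only at hQ
            rwa [if_pos hjW] at hQ
          obtain ⟨y, hy, hy1, hy2⟩ := (hx x).2.2.2.1 i hi j hjW Q hQc (by rw [← hm']; exact hQ')
          have h3 : (cost R (true :: Q) : ℝ) ≤ y.length := by
            rw [hRt]
            exact_mod_cast cost_le_length hy
          have h4 : π Q ≤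
              roundPrice π (Certified R) q u (x, a x.length) (W.eval x.length) i := by
            have h5 : π Q = price π (q (((x, a x.length),
                memory (Certified R) q u (x, a x.length) (W.eval x.length) i), j)) := by
              rw [← hm', hQ']
              rfl
            rw [h5]
            exact Finset.le_sup (f := fun j => price π (q (((x, a x.length),
              memory (Certified R) q u (x, a x.length) (W.eval x.length) i), j)))
              (Finset.mem_range.2 hjW)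
          have h6 := Real.rpow_le_rpow (Nat.cast_nonneg (α := ℝ) _)
            (Nat.cast_le (α := ℝ).2 h4) ht.le
          have h7 := mul_le_mul_of_nonneg_left h6 (Nat.cast_nonneg (α := ℝ) C)
          rw [hQ]
          exact ⟨h3.trans hy1, by linarith⟩
        · refine h0 ?_
          rw [hQ, hRt]
          exact cost_eq_zero fun y hy => absurd ⟨y, hy⟩ hQc
      · exact h0 (hRf _ fun Q hQ => hv ⟨Q, hQ⟩)
    have hrc : ∃ j, roundCost R (fun y => cutQ W q ((y.1.1, (replay u c W y.1).1), y.2))
        (x, a x.length) (W.eval x.length + 1) i = cost R (cutQ W q (((x, a x.length), m), j)) := by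
      unfold roundCost
      obtain ⟨j, hj, hj'⟩ := Finset.exists_mem_eq_sup (Finset.range (W.eval x.length + 1))
        ⟨0, Finset.mem_range.2 (Nat.succ_pos _)⟩ (fun j => cost R (cutQ W q (((x, a x.length),
          (replay u c W ((x, a x.length), roundAnswers (MP_92db0f_lc_gold.Certified R)
            (fun y => cutQ W q ((y.1.1, (replay u c W y.1).1), y.2)) (x, a x.length)
              (W.eval x.length + 1) i)).1), j)))
      refine ⟨j, ?_⟩
      dsimp only at hj' ⊢
      rw [hj', h2, hm']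
    obtain ⟨j, hj⟩ := hrc
    rw [Polynomial.eval_add, Polynomial.eval_one]
    dsimp only at h2 ⊢
    rw [hj, h2]
    exact ⟨(key j).1, (key j).2, (hx x).2.2.1 i hi⟩

/-! ### the classes -/

/-- there are few rounds with long certificates, because of the total price of the queries -/
theorem InQ.inTradeoff_sum {O L : Set (List Bool)} {k t s r w α : ℝ} {V : Polynomial ℕ}
    {π : List Bool → ℕ} (ht : 0 < t) (h : InQ O k t s r w α V π L) (δ : ℝ) :
    InTradeoff O k (max (max s 0 - δ / t) α) δ L := by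
  classical
  obtain ⟨R, q, S, d, a, N, W, P, C, hD, hq, hS, ha, hx⟩ := h.exists_sim ht
  obtain ⟨K, hK⟩ : ∃ K, K = 2 * C + N 0 := ⟨_, rfl⟩
  obtain ⟨γ, hγ⟩ : ∃ γ, γ = max (max s 0 - δ / t) α := ⟨_, rfl⟩
  rw [← hγ]
  have hKC : 2 * C ≤ K := by omega
  have hKC' : (2 : ℝ) * C ≤ K := by exact_mod_cast hKC
  have hC0 : (0 : ℝ) ≤ C := Nat.cast_nonneg C
  refine ⟨R, _, d, a, N, W, P, K, hD, fun n => (ha n).trans (up ?_ hKC), ?_⟩
  · rw [hγ]
    exact le_max_right _ _
  intro x
  obtain ⟨l, hl, hsum, -⟩ := hx x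
  refine ⟨fun i hi => (hl i hi).1.trans (up le_rfl hKC), ?_⟩
  obtain ⟨n, hn⟩ : ∃ n, n = x.length := ⟨_, rfl⟩
  rw [← hn] at hl hsum ⊢
  obtain ⟨cc, hcc⟩ : ∃ cc : ℕ → ℕ, cc = fun i =>
    roundCost R (fun y => q ((y.1.1, S y.1), y.2)) (x, a n) (W.eval n) i := ⟨_, rfl⟩
  have hce : ∀ i, roundCost R (fun y => q ((y.1.1, S y.1), y.2)) (x, a n) (W.eval n) i =
    cc i := fun i => by rw [hcc]
  have hcl : ∀ i < N n, (cc i : ℝ) ≤ C * (l i : ℝ) ^ t + C := by
    intro i hi
    rw [← hce]
    exact (hl i hi).2.1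
  simp only [hce]
  obtain ⟨T, hT⟩ : ∃ T : Finset ℕ, T = (Finset.range (N n)).filter fun i =>
    (K : ℝ) * (n : ℝ) ^ δ + K < (cc i : ℝ) := ⟨_, rfl⟩
  have hTT : {i | i < N n ∧ (K : ℝ) * (n : ℝ) ^ δ + K < (cc i : ℝ)} = (T : Set ℕ) := by
    ext i
    rw [hT]
    simp
  rw [hTT, Set.ncard_coe_finset]
  rcases Nat.eq_zero_or_pos n with h0 | h0
  · have h1 : T.card ≤ K := by
      rw [hT]
      refine (Finset.card_filter_le _ _).trans ?_
      rw [Finset.card_range, h0]
      omega
    have h2 : (T.card : ℝ) ≤ K := by exact_mod_cast h1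
    have h4 : (0 : ℝ) ≤ K * (n : ℝ) ^ γ := by positivity
    linarith
  · have hn' : (1 : ℝ) ≤ n := by exact_mod_cast h0
    have hn0 : (0 : ℝ) < n := by linarith
    have hy0 : 0 < (n : ℝ) ^ (δ / t) := Real.rpow_pos_of_pos hn0 _
    have hTl : ∀ i ∈ T, (n : ℝ) ^ (δ / t) ≤ l i := by
      intro i hi
      rw [hT, Finset.mem_filter, Finset.mem_range] at hi
      by_contra hlt
      rw [not_le] at hlt
      have h1 : (l i : ℝ) ^ t ≤ (n : ℝ) ^ δ := by
        have h2 := Real.rpow_le_rpow (Nat.cast_nonneg _) hlt.le ht.le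
        rwa [← Real.rpow_mul hn0.le, div_mul_cancel₀ _ ht.ne'] at h2
      have h2 := hcl i hi.1
      have h3 : (0 : ℝ) ≤ (n : ℝ) ^ δ := Real.rpow_nonneg hn0.le _
      have h4 : (C : ℝ) * (l i : ℝ) ^ t ≤ K * (n : ℝ) ^ δ :=
        mul_le_mul (by linarith) h1 (Real.rpow_nonneg (Nat.cast_nonneg _) _)
          (Nat.cast_nonneg _)
      linarith [hi.2]
    have h1 : (T.card : ℝ) * (n : ℝ) ^ (δ / t) ≤ C * (n : ℝ) ^ s + C := by
      calc (T.card : ℝ) * (n : ℝ) ^ (δ / t) = ∑ _i ∈ T, (n : ℝ) ^ (δ / t) := by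
            rw [Finset.sum_const, nsmul_eq_mul]
        _ ≤ ∑ i ∈ T, (l i : ℝ) := Finset.sum_le_sum hTl
        _ ≤ ∑ i ∈ Finset.range (N n), (l i : ℝ) := by
            refine Finset.sum_le_sum_of_subset_of_nonneg ?_ fun _ _ _ => Nat.cast_nonneg _
            rw [hT]
            exact Finset.filter_subset _ _
        _ = ((∑ i ∈ Finset.range (N n), l i : ℕ) : ℝ) := by push_cast; rfl
        _ ≤ _ := hsum
    have h2 : (n : ℝ) ^ (max s 0 - δ / t) * (n : ℝ) ^ (δ / t) = (n : ℝ) ^ (max s 0) := by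
      rw [← Real.rpow_add hn0]
      congr 1
      ring
    have h3 : (1 : ℝ) ≤ (n : ℝ) ^ (max s 0) := Real.one_le_rpow hn' (le_max_right _ _)
    have h3' : (n : ℝ) ^ s ≤ (n : ℝ) ^ (max s 0) :=
      Real.rpow_le_rpow_of_exponent_le hn' (le_max_left _ _)
    have h4 : (n : ℝ) ^ (max s 0 - δ / t) ≤ (n : ℝ) ^ γ := by
      rw [hγ]
      exact Real.rpow_le_rpow_of_exponent_le hn' (le_max_left _ _)
    have h5 : (T.card : ℝ) * (n : ℝ) ^ (δ / t) ≤
        (K * (n : ℝ) ^ (max s 0 - δ / t)) * (n : ℝ) ^ (δ / t) := by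
      rw [mul_assoc, h2]
      have h6 := mul_le_mul_of_nonneg_left h3' hC0
      have h7 := mul_le_mul_of_nonneg_left h3 hC0
      have h8 := mul_le_mul_of_nonneg_right hKC' (zero_le_one.trans h3)
      linarith
    have h6 := le_of_mul_le_mul_right h5 hy0
    have h7 := mul_le_mul_of_nonneg_left h4 (Nat.cast_nonneg (α := ℝ) K)
    linarith [Nat.cast_nonneg (α := ℝ) K]

/-- there are few rounds with long certificates, because of the number of rounds -/
theorem InQ.inTradeoff_rounds {O L : Set (List Bool)} {k t s r w α : ℝ} {V : Polynomial ℕ}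
    {π : List Bool → ℕ} (ht : 0 < t) (h : InQ O k t s r w α V π L) (δ : ℝ) :
    InTradeoff O k (max r α) δ L := by
  classical
  obtain ⟨R, q, S, d, a, N, W, P, C, hD, hq, hS, ha, hx⟩ := h.exists_sim ht
  obtain ⟨K, hK⟩ : ∃ K, K = 2 * C := ⟨_, rfl⟩
  have hKC' : (C : ℝ) ≤ K := by
    rw [hK]
    push_cast
    linarith [Nat.cast_nonneg (α := ℝ) C]
  refine ⟨R, _, d, a, N, W, P, K, hD, fun n => (ha n).trans (up (le_max_right _ _) hK.ge), ?_⟩
  intro x
  obtain ⟨l, hl, -, hr⟩ := hx x
  refine ⟨fun i hi => (hl i hi).1.trans (up le_rfl hK.ge),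
    le_trans ?_ (hr.trans (up (le_max_left _ _) hK.ge))⟩
  have h1 : {i | i < N x.length ∧ 0 < l i}.Finite :=
    (Set.finite_lt_nat (N x.length)).subset fun i hi => hi.1
  refine Nat.cast_le.2 (Set.ncard_le_ncard ?_ h1)
  rintro i ⟨hi, hc⟩
  refine ⟨hi, Nat.pos_of_ne_zero fun h0 => ?_⟩
  have h2 := (hl i hi).2.1
  rw [h0, Nat.cast_zero, Real.zero_rpow ht.ne', mul_zero, zero_add] at h2
  have h3 : (0 : ℝ) ≤ K * (x.length : ℝ) ^ δ := by positivity
  linarith

/-- the queries with long certificates depend on the answers only through the memory -/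
theorem InQ.inWidth {O L : Set (List Bool)} {k t s r w α : ℝ} {V : Polynomial ℕ}
    {π : List Bool → ℕ} (hk : 0 < k) (ht : 0 < t) (hw : k * w < 1)
    (h : InQ O k t s r w α V π L) : ∃ σ, k * σ < 1 ∧ InWidth O k σ α 0 L := by
  classical
  obtain ⟨R, q, S, d, a, N, W, P, C, hD, hq, hS, ha, hx⟩ := h.exists_sim ht
  obtain ⟨σ, B, K₀, hσ, hB, hB1, hB2⟩ := exists_memCap hk hw C
  obtain ⟨K, hK⟩ : ∃ K, K = 2 * C + 2 * K₀ := ⟨_, rfl⟩
  have hKC : 2 * C ≤ K := by omega
  have hKC' : (C : ℝ) ≤ K := by exact_mod_cast (by omega : C ≤ K)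
  have hS' : PT fun y : (List Bool × List Bool) × List Bool =>
      if (S y).length ≤ B y.1.1.length then S y else [] :=
    PT.ite (PT.nle (PT.length hS) (hB (PT.length PT.fst.p1))) hS (PT.const [])
  refine ⟨σ, hσ, R, _, q, _, d, a, N, W, P, K, hD, TM_of_strN hq, TM_of_str hS',
    fun n => (ha n).trans (up le_rfl hKC), fun x i hi => ?_⟩
  obtain ⟨l, hl, -, -⟩ := hx x
  obtain ⟨h1, h2, h3⟩ := hl i hi
  refine ⟨h1.trans (up le_rfl hKC), ?_, fun j hj hc => ?_⟩
  · dsimp only
    split_ifs with h4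
    · exact ((Nat.cast_le.2 h4).trans (hB2 _)).trans (up le_rfl (by omega))
    · rw [List.length_nil, Nat.cast_zero]
      positivity
  · have hl0 : 0 < l i := by
      refine Nat.pos_of_ne_zero fun h0 => ?_
      rw [h0, Nat.cast_zero, Real.zero_rpow ht.ne', mul_zero, zero_add] at h2
      have h5 := (Nat.cast_le (α := ℝ).2 (Finset.le_sup (f := fun j => cost R (q (((x, a x.length),
        S ((x, a x.length), roundAnswers (MP_92db0f_lc_gold.Certified R)
          (fun y => q ((y.1.1, S y.1), y.2)) (x, a x.length) (W.eval x.length) i)), j)))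
            (Finset.mem_range.2 hj))).trans h2
      have h6 : (0 : ℝ) ≤ K * (x.length : ℝ) ^ (0 : ℝ) := by positivity
      exact absurd (h5.trans (hKC'.trans (le_add_of_nonneg_left h6))) (not_le.2 hc)
    have h4 := hB1 _ _ (h3 hl0)
    dsimp only
    rw [if_pos h4]

/-- **The lower bound** for the complete problem. -/
theorem lower_KL (O : Set (List Bool)) {k t s r w α : ℝ} (hk : 1 ≤ k) (ht : 0 < t)
    (hα : α < 1 / k) (h : s < 1 / k + 1 / t ∨ r < 1 / k ∨ w < 1 / k) (W : Polynomial ℕ)
    (π : List Bool → ℕ) : ¬ InQ O k t s r w α W π (KL O) := by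
  intro hQ
  have hk0 : 0 < k := by linarith
  have hk1 : ∀ γ, γ < 1 / k → k * γ < 1 := fun γ hγ => (lt_div_iff₀' hk0).1 hγ
  rcases h with h | h | h
  · have h1 : max s 0 < 1 / k + 1 / t := max_lt h (by positivity)
    obtain ⟨η, hη⟩ : ∃ η, η = 1 / k + 1 / t - max s 0 := ⟨_, rfl⟩
    have hη0 : 0 < η := by linarith
    have h2 : (1 - t * (η / 2)) / t = 1 / t - η / 2 := by
      rw [sub_div, mul_div_cancel_left₀ _ ht.ne']
    refine tradeoff O hk (hk1 _ (max_lt ?_ hα)) ?_
      (hQ.inTradeoff_sum ht (1 - t * (η / 2)))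
    · rw [h2]
      linarith
    · have : 0 < t * (η / 2) := by positivity
      linarith
  · exact tradeoff O hk (hk1 _ (max_lt h hα)) (by norm_num : (0 : ℝ) < 1)
      (hQ.inTradeoff_rounds ht 0)
  · obtain ⟨σ, hσ, h1⟩ := hQ.inWidth hk0 ht (hk1 _ h)
    exact MP_92db0f_lc_wid.lower O hk hσ (hk1 _ hα) (by norm_num) h1

/-- **The lower bound.** -/
theorem lower (O : Set (List Bool)) : ∃ L : Set (List Bool), InNE O L ∧
    ∀ k t s r w α : ℝ, 1 ≤ k → 0 < t → α < 1 / k →
      (s < 1 / k + 1 / t ∨ r < 1 / k ∨ w < 1 / k) → ∀ W π, ¬ InQ O k t s r w α W π L :=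
  ⟨KL O, KL_mem O, fun _ _ _ _ _ _ hk ht hα h W π => lower_KL O hk ht hα h W π⟩

end Pool.Agent.PFZ
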